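import Pool.Agent.R858.FO.Main

/-!
Finite orbits on curves without separated multiples: if the field of separated multiples of `p` is
trivial, then the curve `C` in `P¹ × P¹` defined by `p` has only finitely many finite orbits.

`K[x, y]` is `K[X][X]`, with inner variable `x` and outer variable `y`. All definitions are in
`Pool.Agent.R858.FO.Defs`.
-/

set_option autoImplicit false

namespace Pool.Agent.Results.MP_f5f7dd_ag.FiniteOrbits

open Polynomial Pool.Agent.R858.FO

universe u

/-- Let `K` be an algebraically closed field of characteristic zero and `p` an irreducible element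
of `K[x, y]` which is neither in `K[x]` nor in `K[y]`. If every separated multiple `(f, g)` of `p`
is a constant pair `(c, c)`, then the set of the finite orbits of the curve `C` defined by `p` in
`P¹ × P¹` is finite. -/
theorem result {K : Type u} [Field K] [IsAlgClosed K] [CharZero K] (p : K[X][X])
    (hp : Irreducible p) (hx : ∀ q : K[X], p ≠ C q) (hy : ∀ q : K[X], p ≠ q.map C)
    (hF : ∀ fg ∈ sepMultiples p, ∃ c : K, fg = (RatFunc.C c, RatFunc.C c)) :
    (finiteOrbits p).Finite :=
  main hp hx hy hF

end Pool.Agent.Results.MP_f5f7dd_ag.FiniteOrbits
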